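import Pool.Agent.N848.LT.Stm

/-!
# Project LT (helper848): VF, descent of unramifiedness in a quadratic extension (helper288)
-/

set_option autoImplicit false

namespace Pool.Agent.N288.LT

open NumberField IsDedekindDomain Module Pool.Agent.N848.LT

section core

variable {K Γ : Type} [Field K] [CharZero K] [LinearOrderedCommGroupWithZero Γ] (V : Valuation K Γ)

theorem sq_one {x : Γ} (h : x ^ 2 = 1) : x = 1 := by
  rcases lt_trichotomy x 1 with h1 | h1 | h1
  · exact absurd h (ne_of_lt (pow_lt_one₀ zero_le' h1 two_ne_zero))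
  · exact h1
  · exact absurd h (ne_of_gt (one_lt_pow₀ h1 two_ne_zero))

theorem one_of_add {x y : K} (hx : V x ≤ 1) (hy : V y ≤ 1) (h : V (x - y) = 1) :
    V x = 1 ∨ V y = 1 := by
  by_contra hcon
  push Not at hcon
  have h1 := V.map_sub x y
  rw [h] at h1
  have h2 : max (V x) (V y) < 1 :=
    max_lt (lt_of_le_of_ne hx hcon.1) (lt_of_le_of_ne hy hcon.2)
  exact absurd h1 (not_le.2 h2)

theorem add_le {x y : K} {c : Γ} (hx : V x ≤ c) (hy : V y ≤ c) : V (x + y) ≤ c :=
  V.map_add_le hx hy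

theorem core (b m al be : K) (h2 : V 2 ≤ 1)
    (hA : V 2 = 1 → V (b * (al ^ 2 - m * be ^ 2)) = 1 ∧ V (2 * (b * (al ^ 2 + m * be ^ 2))) ≤ 1)
    (hB : V 2 < 1 → ∃ T N : K, V T ≤ 1 ∧ V N ≤ 1 ∧ b * (al ^ 2 + m * be ^ 2) = 1 + 2 * T ∧
      (b * (al ^ 2 - m * be ^ 2)) ^ 2 = 1 + 4 * T + 16 * N) :
    (∃ y, V (b * y ^ 2) = 1 ∧ V (b * y ^ 2 - 1) ≤ V 4) ∨
      ∃ y, V (b * m * y ^ 2) = 1 ∧ V (b * m * y ^ 2 - 1) ≤ V 4 := by
  have h4 : V 4 = V 2 ^ 2 := by
    rw [← map_pow]
    norm_num
  have h20 : (2 : K) ≠ 0 := two_ne_zero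
  rcases h2.lt_or_eq with hlt | heq
  · obtain ⟨T, N, hT, hN, e1, e2⟩ := hB hlt
    obtain ⟨z, hz⟩ : ∃ z, z = b * (al ^ 2 - m * be ^ 2) := ⟨_, rfl⟩
    rw [← hz] at e2
    have h4lt : V 4 < 1 := by
      rw [h4]
      exact pow_lt_one₀ zero_le' hlt two_ne_zero
    have hprod : V ((z - 1) * (z + 1)) ≤ V 4 := by
      have e : (z - 1) * (z + 1) = 4 * (T + 4 * N) := by linear_combination e2
      rw [e, map_mul]
      have h5 : V (T + 4 * N) ≤ 1 := by
        refine add_le V hT ?_
        rw [map_mul]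
        exact mul_le_one' h4lt.le hN
      calc V 4 * V (T + 4 * N) ≤ V 4 * 1 := by gcongr
        _ = V 4 := mul_one _
    have hz1 : V (z - 1) ≤ V 2 := by
      by_contra hcon
      push Not at hcon
      have h6 : V (z + 1) = V (z - 1) := by
        have e : z + 1 = (z - 1) + 2 := by ring
        rw [e]
        exact V.map_add_eq_of_lt_left hcon
      rw [map_mul, h6, h4, ← sq] at hprod
      exact absurd hprod (not_le.2 (pow_lt_pow_left₀ hcon zero_le' two_ne_zero))
    obtain ⟨sg, hsg⟩ : ∃ sg, sg = (z - 1) / 2 := ⟨_, rfl⟩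
    have hV2 : V 2 ≠ 0 := (Valuation.ne_zero_iff V).2 h20
    have hsg1 : V sg ≤ 1 := by
      rw [hsg, map_div₀]
      exact div_le_one_of_le₀ hz1 zero_le'
    have ez : z = 1 + 2 * sg := by
      rw [hsg]
      field_simp
      ring
    have eT : T = sg + sg ^ 2 - 4 * N := by
      have h7 : 4 * (sg + sg ^ 2) = 4 * (T + 4 * N) := by
        rw [ez] at e2
        linear_combination e2
      have h8 := mul_left_cancel₀ (by norm_num : (4 : K) ≠ 0) h7
      linear_combination -h8
    have eP : b * al ^ 2 = (1 + sg) ^ 2 - 4 * N := by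
      have h9 : 2 * (b * al ^ 2) = 2 * ((1 + sg) ^ 2 - 4 * N) := by
        linear_combination e1 - hz + ez + 2 * eT
      exact mul_left_cancel₀ h20 h9
    have eQ : b * m * be ^ 2 = sg ^ 2 - 4 * N := by
      have h9 : 2 * (b * m * be ^ 2) = 2 * (sg ^ 2 - 4 * N) := by
        linear_combination e1 + hz - ez + 2 * eT
      exact mul_left_cancel₀ h20 h9
    have key : ∀ (c x g : K), V g = 1 → c * x ^ 2 = g ^ 2 - 4 * N →
        ∃ y, V (c * y ^ 2) = 1 ∧ V (c * y ^ 2 - 1) ≤ V 4 := by
      intro c x g hg he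
      have hg0 : g ≠ 0 := by
        rintro rfl
        rw [map_zero] at hg
        exact zero_ne_one hg
      refine ⟨x / g, ?_⟩
      have e3 : c * (x / g) ^ 2 = 1 + -(4 * N / g ^ 2) := by
        rw [div_pow, ← mul_div_assoc, he]
        field_simp
        ring
      have h10 : V (-(4 * N / g ^ 2)) ≤ V 4 := by
        rw [Valuation.map_neg, map_div₀, map_pow, hg, one_pow, div_one, map_mul]
        calc V 4 * V N ≤ V 4 * 1 := by gcongr
          _ = V 4 := mul_one _
      constructor
      · rw [e3]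
        have h11 := V.map_add_eq_of_lt_left (x := (1 : K)) (y := -(4 * N / g ^ 2))
          (by rw [map_one]; exact lt_of_le_of_lt h10 h4lt)
        rw [h11, map_one]
      · rw [e3, add_sub_cancel_left]
        exact h10
    have h12 : V (1 + sg) ≤ 1 := add_le V (by rw [map_one]) hsg1
    rcases one_of_add V h12 hsg1 (by rw [add_sub_cancel_right, map_one]) with h13 | h13
    · exact Or.inl (key b al (1 + sg) h13 eP)
    · exact Or.inr (key (b * m) be sg h13 eQ)
  · obtain ⟨hz, hS⟩ := hA heq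
    have h41 : V 4 = 1 := by rw [h4, heq, one_pow]
    have hS' : V (b * (al ^ 2 + m * be ^ 2)) ≤ 1 := by
      rwa [map_mul, heq, one_mul] at hS
    have hP : V (b * al ^ 2) ≤ 1 := by
      have e : 2 * (b * al ^ 2) = b * (al ^ 2 + m * be ^ 2) + b * (al ^ 2 - m * be ^ 2) := by ring
      have h5 : V (2 * (b * al ^ 2)) ≤ 1 := by
        rw [e]
        exact add_le V hS' hz.le
      rwa [map_mul, heq, one_mul] at h5
    have hQ : V (b * m * be ^ 2) ≤ 1 := by
      have e : 2 * (b * m * be ^ 2) = b * (al ^ 2 + m * be ^ 2) - b * (al ^ 2 - m * be ^ 2) := by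
        ring
      have h5 : V (2 * (b * m * be ^ 2)) ≤ 1 := by
        rw [e]
        exact V.map_sub_le hS' hz.le
      rwa [map_mul, heq, one_mul] at h5
    have hd : V (b * al ^ 2 - b * m * be ^ 2) = 1 := by
      rw [← hz]
      congr 1
      ring
    rcases one_of_add V hP hQ hd with h5 | h5
    · refine Or.inl ⟨al, h5, ?_⟩
      rw [h41]
      exact V.map_sub_le h5.le (by rw [map_one])
    · refine Or.inr ⟨be, h5, ?_⟩
      rw [h41]
      exact V.map_sub_le h5.le (by rw [map_one])

end core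

section quad

variable {K K' : Type} [Field K] [Field K'] [Algebra K K'] {m : K} {s : K'}

theorem linInd (hs : s ^ 2 = algebraMap K K' m) (hm : ¬ IsSquare m) :
    LinearIndependent K ![(1 : K'), s] := by
  rw [LinearIndependent.pair_iff]
  intro x y h
  by_cases hy : y = 0
  · subst hy
    rw [zero_smul, add_zero] at h
    refine ⟨?_, rfl⟩
    rcases smul_eq_zero.1 h with h1 | h1
    · exact h1
    · exact absurd h1 one_ne_zero
  · exfalso
    apply hm
    have h1 : s = algebraMap K K' (-x / y) := by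
      rw [Algebra.smul_def, Algebra.smul_def, mul_one] at h
      have hy' : algebraMap K K' y ≠ 0 := by
        rw [Ne, map_eq_zero]
        exact hy
      rw [map_div₀, map_neg, eq_div_iff hy']
      linear_combination h
    rw [h1, ← map_pow] at hs
    have h2 := (algebraMap K K').injective hs
    exact ⟨-x / y, by rw [← h2, sq]⟩

noncomputable def bas (hs : s ^ 2 = algebraMap K K' m) (hm : ¬ IsSquare m)
    (hd : finrank K K' = 2) : Basis (Fin 2) K K' :=
  basisOfLinearIndependentOfCardEqFinrank (linInd hs hm) (by rw [hd, Fintype.card_fin])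

theorem bas_coe (hs : s ^ 2 = algebraMap K K' m) (hm : ¬ IsSquare m)
    (hd : finrank K K' = 2) : ⇑(bas hs hm hd) = ![(1 : K'), s] := by
  unfold bas
  simp

theorem decomp (hs : s ^ 2 = algebraMap K K' m) (hm : ¬ IsSquare m)
    (hd : finrank K K' = 2) (f : K') :
    ∃ al be : K, f = algebraMap K K' al + algebraMap K K' be * s := by
  refine ⟨(bas hs hm hd).repr f 0, (bas hs hm hd).repr f 1, ?_⟩
  have h := (bas hs hm hd).sum_repr f
  rw [Fin.sum_univ_two, bas_coe] at h
  simp only [Matrix.cons_val_zero, Matrix.cons_val_one, Algebra.smul_def, mul_one] at h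
  exact h.symm

theorem mat (hs : s ^ 2 = algebraMap K K' m) (hm : ¬ IsSquare m)
    (hd : finrank K K' = 2) (al be : K) :
    Algebra.leftMulMatrix (bas hs hm hd) (algebraMap K K' al + algebraMap K K' be * s) =
      !![al, m * be; be, al] := by
  have h0 : bas hs hm hd 0 = 1 := by rw [bas_coe]; rfl
  have h1 : bas hs hm hd 1 = s := by rw [bas_coe]; rfl
  have e0 : (algebraMap K K' al + algebraMap K K' be * s) * bas hs hm hd 0 =
      al • bas hs hm hd 0 + be • bas hs hm hd 1 := by
    rw [h0, h1, Algebra.smul_def, Algebra.smul_def]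
    ring
  have e1 : (algebraMap K K' al + algebraMap K K' be * s) * bas hs hm hd 1 =
      (m * be) • bas hs hm hd 0 + al • bas hs hm hd 1 := by
    rw [h0, h1, Algebra.smul_def, Algebra.smul_def, map_mul, ← hs]
    ring
  ext i j
  rw [Algebra.leftMulMatrix_eq_repr_mul]
  fin_cases j
  · simp only [Fin.zero_eta]
    rw [e0]
    fin_cases i <;> simp
  · simp only [Fin.mk_one]
    rw [e1]
    fin_cases i <;> simp

theorem norm_eq (hs : s ^ 2 = algebraMap K K' m) (hm : ¬ IsSquare m)
    (hd : finrank K K' = 2) (al be : K) :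
    Algebra.norm K (algebraMap K K' al + algebraMap K K' be * s) = al ^ 2 - m * be ^ 2 := by
  rw [Algebra.norm_eq_matrix_det (bas hs hm hd), mat, Matrix.det_fin_two_of]
  ring

theorem trace_eq (hs : s ^ 2 = algebraMap K K' m) (hm : ¬ IsSquare m)
    (hd : finrank K K' = 2) (al be : K) :
    Algebra.trace K K' (algebraMap K K' al + algebraMap K K' be * s) = 2 * al := by
  rw [Algebra.trace_eq_matrix_trace (bas hs hm hd), mat, Matrix.trace_fin_two_of]
  ring

end quad

theorem t_VF (h1 : S_APX) (h2 : S_INT) (_h3 : S_UP) : S_VF := by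
  intro K K' _ _ _ _ _ m s hs hm hd v b hb
  obtain ⟨y, hy⟩ := h1 K K' v (algebraMap K K' b) hb
  obtain ⟨al, be, hf⟩ := decomp hs hm hd y
  -- a prime above `v`
  have hw : ∃ w : HeightOneSpectrum (𝓞 K'), Ab w v := by
    by_contra hcon
    push Not at hcon
    obtain ⟨π, hπ⟩ := v.valuation_exists_uniformizer K
    have h5 := (h2 K K' v (algebraMap K K' π⁻¹) fun w hw => absurd hw (hcon w)).1
    rw [Algebra.norm_algebraMap, hd, map_pow, map_inv₀] at h5
    have h6 : v.valuation K π < 1 := by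
      rw [hπ, ← WithZero.exp_zero, WithZero.exp_lt_exp]
      norm_num
    have h7 : v.valuation K π ≠ 0 := by
      rw [hπ]
      exact WithZero.exp_ne_zero
    have h8 : 1 < (v.valuation K π)⁻¹ := (one_lt_inv₀ (zero_lt_iff.2 h7)).2 h6
    exact absurd h5 (not_le.2 (one_lt_pow₀ h8 two_ne_zero))
  obtain ⟨w₀, hw₀⟩ := hw
  have hby : algebraMap K K' b * y ^ 2 =
      algebraMap K K' (b * (al ^ 2 + m * be ^ 2)) + algebraMap K K' (2 * b * al * be) * s := by
    rw [hf]
    simp only [map_mul, map_add, map_pow, map_ofNat, ← hs]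
    ring
  have hne : algebraMap K K' b * y ^ 2 ≠ 0 := by
    intro h
    have := (hy w₀ hw₀).1
    rw [h, map_zero] at this
    exact zero_ne_one this
  have hnorm : Algebra.norm K (algebraMap K K' b * y ^ 2) = (b * (al ^ 2 - m * be ^ 2)) ^ 2 := by
    rw [hby, norm_eq hs hm hd]
    ring
  have htr : Algebra.trace K K' (algebraMap K K' b * y ^ 2) =
      2 * (b * (al ^ 2 + m * be ^ 2)) := by
    rw [hby, trace_eq hs hm hd]
  have hV2 : v.valuation K 2 ≤ 1 := by
    have e : algebraMap (𝓞 K) K 2 = 2 := map_ofNat _ 2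
    rw [← e]
    exact v.valuation_le_one (K := K) (2 : 𝓞 K)
  refine (core (v.valuation K) b m al be hV2 ?_ ?_)
  · intro _
    have h5 := h2 K K' v (algebraMap K K' b * y ^ 2) fun w hw => (hy w hw).1.le
    have h6 := h2 K K' v (algebraMap K K' b * y ^ 2)⁻¹ fun w hw => by
      rw [map_inv₀, (hy w hw).1, inv_one]
    refine ⟨?_, ?_⟩
    · have h7 := h5.1
      have h8 := h6.1
      have hinv : Algebra.norm K (algebraMap K K' b * y ^ 2)⁻¹ =
          (Algebra.norm K (algebraMap K K' b * y ^ 2))⁻¹ := by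
        apply eq_inv_of_mul_eq_one_left
        rw [← map_mul, inv_mul_cancel₀ hne, map_one]
      rw [hinv, map_inv₀, hnorm, map_pow] at h8
      rw [hnorm, map_pow] at h7
      apply sq_one
      refine le_antisymm h7 ?_
      have hn0 : (b * (al ^ 2 - m * be ^ 2)) ^ 2 ≠ 0 := by
        rw [← hnorm, Ne, Algebra.norm_eq_zero_iff]
        exact hne
      have hv0 : (v.valuation K) (b * (al ^ 2 - m * be ^ 2)) ^ 2 ≠ 0 := by
        rw [← map_pow]
        exact (Valuation.ne_zero_iff _).2 hn0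
      exact (inv_le_one₀ (zero_lt_iff.2 hv0)).1 h8
    · have h7 := h5.2.1
      rwa [htr] at h7
  · intro _
    obtain ⟨p, hp⟩ : ∃ p, p = (b * (al ^ 2 + m * be ^ 2) - 1) / 4 := ⟨_, rfl⟩
    obtain ⟨q, hq⟩ : ∃ q, q = b * al * be / 2 := ⟨_, rfl⟩
    have ht : (algebraMap K K' b * y ^ 2 - 1) / 4 = algebraMap K K' p + algebraMap K K' q * s := by
      rw [hby, hp, hq]
      simp only [map_div₀, map_sub, map_mul, map_add, map_pow, map_ofNat, map_one]
      ring
    have h5 := h2 K K' v ((algebraMap K K' b * y ^ 2 - 1) / 4) fun w hw => by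
      rw [map_div₀]
      exact div_le_one_of_le₀ (hy w hw).2 zero_le'
    rw [ht, norm_eq hs hm hd, trace_eq hs hm hd] at h5
    refine ⟨2 * p, p ^ 2 - m * q ^ 2, h5.2.1, h5.1, ?_, ?_⟩
    · rw [hp]
      ring
    · rw [hp, hq]
      ring

end Pool.Agent.N288.LT
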